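import Pool.Agent.MP_1246c0_nt.H12.SpecN

/-! From the amplified bound to rectangles. -/

namespace Pool.Agent.MP_1246c0_nt.H12

open Finset

namespace RECT

theorem box_mono {R : Type} [CommRing R] {N : ℕ} (e : Fin N → R) {L L' : ℕ} (h : L ≤ L') {x : R}
    (hx : x ∈ Box e L) : x ∈ Box e L' := by
  obtain ⟨a, ha, rfl⟩ := hx
  exact ⟨a, fun j => (ha j).trans (by exact_mod_cast h), rfl⟩

theorem ex_L (N M : ℕ) (hN : 1 ≤ N) (hM : 2 ≤ M) :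
    ∃ L : ℕ, 1 ≤ L ∧ M ≤ L ^ N ∧ L ^ N ≤ 2 ^ N * M := by
  have hex : ∃ L : ℕ, M ≤ L ^ N := ⟨M, Nat.le_self_pow (by omega) M⟩
  classical
  have h1 := Nat.find_spec hex
  have h2 : 2 ≤ Nat.find hex := by
    by_contra h
    have : Nat.find hex ^ N ≤ 1 ^ N := Nat.pow_le_pow_left (by omega) N
    rw [one_pow] at this
    omega
  have h3 : ¬ M ≤ (Nat.find hex - 1) ^ N := Nat.find_min hex (by omega)
  refine ⟨Nat.find hex, by omega, h1, ?_⟩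
  calc Nat.find hex ^ N ≤ (2 * (Nat.find hex - 1)) ^ N := Nat.pow_le_pow_left (by omega) N
    _ = 2 ^ N * (Nat.find hex - 1) ^ N := mul_pow _ _ _
    _ ≤ 2 ^ N * M := Nat.mul_le_mul_left _ (by omega)

theorem ex_k (N M M' Y : ℕ) (hN : 1 ≤ N) (hM : 2 ≤ M) (hM' : 2 ≤ M') (hY : Y ≤ M) (hY' : Y ≤ M') :
    ∃ k : ℕ, 1 ≤ k ∧ M' ^ (3 * N) ≤ M ^ k ∧ Y ^ k ≤ M' ^ (4 * N) ∧
      (k : ℝ) ≤ 5 * N * (Real.log M' + 2) := by
  have h0 : M' ^ (3 * N) ≠ 0 := pow_ne_zero _ (by omega)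
  have h1 := Nat.pow_log_le_self M h0
  have h2 := Nat.lt_pow_succ_log_self (b := M) (by omega) (M' ^ (3 * N))
  set j := Nat.log M (M' ^ (3 * N)) with hj
  refine ⟨j + 1, by omega, h2.le, ?_, ?_⟩
  · calc Y ^ (j + 1) = Y ^ j * Y := pow_succ _ _
      _ ≤ M ^ j * M' ^ N := Nat.mul_le_mul (Nat.pow_le_pow_left hY j)
          (hY'.trans (Nat.le_self_pow (by omega) M'))
      _ ≤ M' ^ (3 * N) * M' ^ N := Nat.mul_le_mul_right _ h1
      _ = M' ^ (4 * N) := by rw [← pow_add]; congr 1; omega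
  · have h3 : 2 ^ j ≤ M' ^ (3 * N) := (Nat.pow_le_pow_left hM j).trans h1
    have h4 : (2 : ℝ) ^ j ≤ (M' : ℝ) ^ (3 * N) := by exact_mod_cast h3
    have h5 := Real.log_le_log (by positivity) h4
    rw [Real.log_pow, Real.log_pow] at h5
    have h6 := Real.log_two_gt_d9
    have h7 : 0 ≤ Real.log (M' : ℝ) := Real.log_natCast_nonneg _
    have hN' : (1 : ℝ) ≤ N := by exact_mod_cast hN
    have hj0 : (0 : ℝ) ≤ j := Nat.cast_nonneg _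
    have h8 : 0 ≤ (N : ℝ) * Real.log M' := by positivity
    push_cast at h5 ⊢
    nlinarith

theorem num (N κ k : ℕ) (l : ℝ) (hN : 1 ≤ N) (hκ : 1 ≤ κ) (hk : 1 ≤ k) (hl : 1 ≤ l)
    (h : (k : ℝ) ≤ 5 * N * l) :
    (k : ℝ) ^ k * (N + 1) * (3 ^ N * ((2 * κ) ^ N) ^ k) ≤ ((100 * κ : ℝ) ^ N * l) ^ (2 * k) := by
  have hκ' : (1 : ℝ) ≤ κ := by exact_mod_cast hκ
  have a1 : N + 1 ≤ 2 ^ N := Nat.lt_two_pow_self
  have a2 : (N + 1 : ℝ) ≤ 2 ^ N := by exact_mod_cast a1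
  have a3 : (5 : ℝ) ≤ 5 ^ N := le_self_pow₀ (by norm_num) (by omega)
  have a4 : (5 * N : ℝ) ≤ 10 ^ N := by
    have : (10 : ℝ) ^ N = 5 ^ N * 2 ^ N := by rw [← mul_pow]; norm_num
    rw [this]
    exact mul_le_mul a3 (by linarith) (Nat.cast_nonneg _) (by positivity)
  have b1 : (k : ℝ) ^ k ≤ (10 ^ N * l ^ 2) ^ k := by
    refine pow_le_pow_left₀ (Nat.cast_nonneg _) (h.trans ?_) k
    exact mul_le_mul a4 (by nlinarith) (by linarith) (by positivity)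
  have b2 : (N + 1 : ℝ) ≤ (2 ^ N) ^ k :=
    a2.trans (le_self_pow₀ (one_le_pow₀ (by norm_num)) (by omega))
  have b3 : (3 : ℝ) ^ N ≤ (3 ^ N) ^ k := le_self_pow₀ (one_le_pow₀ (by norm_num)) (by omega)
  calc (k : ℝ) ^ k * (N + 1) * (3 ^ N * ((2 * κ) ^ N) ^ k)
      ≤ (10 ^ N * l ^ 2) ^ k * (2 ^ N) ^ k * ((3 ^ N) ^ k * ((2 * κ) ^ N) ^ k) := by gcongr
    _ = ((120 * κ) ^ N * l ^ 2) ^ k := by
        rw [← mul_pow, ← mul_pow, ← mul_pow]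
        congr 1
        have : (120 * κ : ℝ) = 10 * 2 * (3 * (2 * κ)) := by ring
        rw [this, mul_pow (10 * 2 : ℝ), mul_pow (10 : ℝ), mul_pow (3 : ℝ)]
        ring
    _ ≤ (((100 * κ) ^ 2) ^ N * l ^ 2) ^ k := by
        gcongr
        nlinarith
    _ = ((100 * κ : ℝ) ^ N * l) ^ (2 * k) := by
        rw [pow_mul, mul_pow _ l, ← pow_mul, ← pow_mul, mul_comm 2 N]

end RECT

open RECT in
theorem rowRECT : OfRECT := by
  intro hA R _ N e κ nm α χ A A' u v M M' Y hN hY hK hS h1 h2 hu hv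
  have hY0 : (0 : ℝ) < Y := by exact_mod_cast hY
  have hlog : 0 ≤ Real.log (M' : ℝ) := Real.log_natCast_nonneg _
  have hyp : 0 < (Y : ℝ) ^ (1 / (8 * N) : ℝ) := Real.rpow_pos_of_pos hY0 _
  have hD : 0 ≤ (100 * κ : ℝ) ^ N * (Real.log M' + 2) / (Y : ℝ) ^ (1 / (8 * N) : ℝ) * M * M' := by
    positivity
  rcases A.eq_empty_or_nonempty with rfl | ⟨p0, hp0⟩
  · simpa using hD
  rcases A'.eq_empty_or_nonempty with rfl | ⟨q0, hq0⟩
  · simpa using hD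
  have hYM : Y < M := (h1 p0 hp0).1.trans_le (h1 p0 hp0).2.1
  have hYM' : Y < M' := (h2 q0 hq0).2.1.trans_le (h2 q0 hq0).2.2.1
  obtain ⟨L, hL1, hL2, hL3⟩ := ex_L N M hN (by omega)
  obtain ⟨k, hk1, hk2, hk3, hk4⟩ := ex_k N M M' Y hN (by omega) (by omega) hYM.le hYM'.le
  have hκ := hK.pos
  have hbox : ∀ p ∈ A, α p ∈ Box e L := by
    intro p hp
    obtain ⟨-, hpM, L', hb, hL'⟩ := h1 p hp
    refine box_mono e ?_ hb
    exact (Nat.pow_le_pow_iff_left (n := N) (by omega)).1 (hL'.trans (hpM.trans hL2))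
  have hpos : 1 ≤ (κ * L) ^ k := Nat.one_le_pow _ _ (Nat.mul_pos hκ hL1)
  have hcube : M' ^ 3 ≤ 3 * (κ * L) ^ k := by
    have c1 : (M' ^ 3) ^ N ≤ (L ^ k) ^ N := by
      rw [← pow_mul, ← pow_mul, mul_comm k N, pow_mul L]
      exact hk2.trans (Nat.pow_le_pow_left hL2 k)
    have c2 : M' ^ 3 ≤ L ^ k := (Nat.pow_le_pow_iff_left (n := N) (by omega)).1 c1
    have c3 : L ^ k ≤ (κ * L) ^ k := Nat.pow_le_pow_left (Nat.le_mul_of_pos_left _ hκ) k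
    omega
  have key := hA R N e κ nm α χ A A' u v L M' k (3 * (κ * L) ^ k) hK hS hbox
    (fun p hp => ⟨(h2 p hp).1, (h2 p hp).2.2⟩) hu hv hk1 (by omega) hcube
  have hcard : A.card ≤ M := by
    have : A ⊆ Icc 1 M := fun p hp => mem_Icc.2 ⟨by have := (h1 p hp).1; omega, (h1 p hp).2.1⟩
    simpa using card_le_card this
  have hcard' : (A.card : ℝ) ≤ M := by exact_mod_cast hcard
  have hW : (((3 * (κ * L) ^ k : ℕ) : ℝ)) ^ N ≤ 3 ^ N * ((2 * κ) ^ N) ^ k * (M : ℝ) ^ k := by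
    have c1 : (3 * (κ * L) ^ k) ^ N ≤ 3 ^ N * ((2 * κ) ^ N) ^ k * M ^ k := by
      calc (3 * (κ * L) ^ k) ^ N = 3 ^ N * (κ ^ N * L ^ N) ^ k := by
            rw [mul_pow 3, ← pow_mul, mul_comm k N, pow_mul, mul_pow κ]
        _ ≤ 3 ^ N * (κ ^ N * (2 ^ N * M)) ^ k := by gcongr
        _ = 3 ^ N * ((2 * κ) ^ N) ^ k * M ^ k := by
            rw [mul_assoc, ← mul_pow _ M, mul_pow 2 κ]
            congr 2
            ring
    exact_mod_cast c1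
  have hN0 : (0 : ℝ) < N := by exact_mod_cast hN
  have hM0 : (0 : ℝ) < M' := by exact_mod_cast (by omega : 0 < M')
  have hy : ((Y : ℝ) ^ (1 / (8 * N) : ℝ)) ^ (2 * k) ≤ M' := by
    refine (pow_le_pow_iff_left₀ (n := 4 * N) (by positivity) hM0.le (by omega)).1 ?_
    have : (((Y : ℝ) ^ (1 / (8 * N) : ℝ)) ^ (2 * k)) ^ (4 * N) = (Y : ℝ) ^ k := by
      rw [← pow_mul, ← Real.rpow_natCast, ← Real.rpow_mul hY0.le, ← Real.rpow_natCast]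
      congr 1
      push_cast
      field_simp
      ring
    rw [this]
    exact_mod_cast hk3
  have hnum := num N κ k (Real.log M' + 2) hN hκ hk1 (by linarith) hk4
  refine (pow_le_pow_iff_left₀ (n := 2 * k) (abs_nonneg _) hD (by omega)).1 (key.trans ?_)
  have hpw : (M' : ℝ) ^ (2 * k - 1) = (M' : ℝ) ^ (2 * k) / M' := by
    rw [eq_div_iff hM0.ne', ← pow_succ]
    congr 1
    omega
  calc (M' : ℝ) ^ (2 * k - 1) * (A.card : ℝ) ^ k * (k : ℝ) ^ k * (N + 1) *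
        (((3 * (κ * L) ^ k : ℕ) : ℝ)) ^ N
      ≤ (M' : ℝ) ^ (2 * k - 1) * (M : ℝ) ^ k * (k : ℝ) ^ k * (N + 1) *
        (3 ^ N * ((2 * κ) ^ N) ^ k * (M : ℝ) ^ k) := by gcongr
    _ = ((k : ℝ) ^ k * (N + 1) * (3 ^ N * ((2 * κ) ^ N) ^ k)) / M' * (M : ℝ) ^ (2 * k) *
        (M' : ℝ) ^ (2 * k) := by
        rw [hpw, two_mul k, pow_add (M : ℝ)]
        ring
    _ ≤ ((100 * κ : ℝ) ^ N * (Real.log M' + 2)) ^ (2 * k) /
        ((Y : ℝ) ^ (1 / (8 * N) : ℝ)) ^ (2 * k) * (M : ℝ) ^ (2 * k) * (M' : ℝ) ^ (2 * k) := by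
        gcongr
    _ = _ := by rw [mul_pow _ (M' : ℝ), mul_pow _ (M : ℝ), div_pow]

end Pool.Agent.MP_1246c0_nt.H12
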