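import Pool.Agent.MP_1246c0_nt.H12.SpecA

/-! Halving a class. -/

namespace Pool.Agent.MP_1246c0_nt.H12

open NumberField IsDedekindDomain Pool.Agent.MP_db5b97_nt.H85

namespace HALF

variable {L : Type} [Field L] [NumberField L]

theorem mem_smul (g : L ≃ₐ[ℚ] L) (w : Pr L 2) (d : ℕ) :
    (d : 𝓞 L) ∈ (g • w).1.asIdeal ↔ (d : 𝓞 L) ∈ w.1.asIdeal :=
  (mem_smul_iff g w.1 d).trans (by rw [smul_natCast])

theorem fix {σ : L ≃ₐ[ℚ] L} {d : ℕ} (h : ∀ w : Pr L 2, (d : 𝓞 L) ∈ w.1.asIdeal → σ • w = w)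
    {C : Dv L 2} (hC : C ∈ Rm L d) : σ • C = C := by
  ext w
  rw [Finsupp.comapSMul_apply]
  by_cases hw : (d : 𝓞 L) ∈ w.1.asIdeal
  · rw [inv_smul_eq_iff.2 (h w hw).symm]
  · rw [hC w hw, hC _ (mt (mem_smul _ w d).1 hw)]

theorem unit {σ : L ≃ₐ[ℚ] L} {w : Sp L} (h : ∀ x : 𝓞 L, σ • x - x ∈ w.asIdeal) {x : L}
    (hx : w.valuation L x = 1) : w.valuation L (x / σ x - 1) < 1 := by
  obtain ⟨a, ⟨b, hb⟩, e⟩ := w.exists_primeCompl_mul_eq_of_integer x hx.le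
  have e1 : x * (b : L) = a := e
  have b1 := (val_eq_one_iff w b).2 hb
  have a1 : a ∉ w.asIdeal := (val_eq_one_iff w a).1 (by rw [← e1, map_mul, hx, b1, one_mul])
  have a2 := (val_eq_one_iff w (σ • a)).2 fun h1 => a1 (by simpa using sub_mem h1 (h a))
  have e2 : σ x * ((σ • b : 𝓞 L) : L) = (σ • a : 𝓞 L) := (map_mul σ x b).symm.trans (congrArg σ e1)
  have x0 : σ x ≠ 0 := fun h0 => by simp [← e2, h0] at a2
  have k := (val_lt_one_iff w _).2 (sub_mem (w.asIdeal.mul_mem_left a (h b))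
    (w.asIdeal.mul_mem_left b (h a)))
  have e3 : ((a * (σ • b - b) - b * (σ • a - a) : 𝓞 L) : L) =
      (x / σ x - 1) * b * (σ • a : 𝓞 L) := by
    simp only [map_sub, map_mul]
    field_simp
    linear_combination (-(σ x * ((σ • b : 𝓞 L) : L))) * e1 + (x * (b : L)) * e2
  rwa [e3, map_mul, map_mul, b1, a2, mul_one, mul_one] at k

theorem sgn {σ : L ≃ₐ[ℚ] L} {w : Sp L} (h : ∀ x : 𝓞 L, σ • x - x ∈ w.asIdeal) {S : Un L}
    (h1 : σ S.val = -S.val) (h2 : ord w S = 1) (δ : Un L) :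
    w.valuation L ((δ - σ • δ).val - (-1) ^ ord w δ) < 1 := by
  have k := unit h ((ord_eq_zero_iff w (δ - ord w δ • S)).1 (by simp [h2]))
  have e : (δ - σ • δ).val - (-1) ^ ord w δ =
      (-1) ^ ord w δ * ((δ - ord w δ • S).val / σ (δ - ord w δ • S).val - 1) := by
    have s0 := zpow_ne_zero (ord w δ) S.val_ne
    have s1 : ((-1 : L) ^ ord w δ) * (-1) ^ ord w δ = 1 := by rw [← mul_zpow]; simp
    have s2 : σ δ.val ≠ 0 := by simp
    simp only [Un.val_sub, Un.val_smul, Un.val_zsmul, map_div₀, map_zpow₀, h1, AlgEquiv.smul_def]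
    rw [neg_eq_neg_one_mul S.val, mul_zpow]
    field_simp
    linear_combination (-δ.val) * s1
  rw [e, map_mul, map_zpow₀, Valuation.map_neg, map_one, one_zpow, one_mul]
  exact k

theorem dv_mem {g : L ≃ₐ[ℚ] L} {x : Un L} (h : g • x = x) : dv L 2 x ∈ Od (Fx (Un L) g) :=
  ⟨1, odd_one, x, h, one_smul _ _⟩

theorem half (hW : STW) (hP : STP) (hA : SAMB) {d M m : ℕ} {s θ : L} {σ γ : L ≃ₐ[ℚ] L}
    (T : Tw L d M s θ σ γ) (hm : m ≤ M) (N : ℕ) (x β : Un L) (C : Dv L 2) (hx : γ ^ N • x = x)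
    (hβ : γ ^ 2 ^ m • β = β) (e : β + σ • β = x) (hC : dv L 2 x = 2 • C) (hR : C ∈ Rm L d) :
    ∃ E ∈ Iv γ m, ∃ c ∈ Rm L d, 2 • E - C ∈ Oc γ m ∧ γ ^ N • E - E - c ∈ Oc γ m ∧
      Sgn d (γ ^ N • β - β) c := by
  obtain ⟨-, -, σ2, cm, -⟩ := hW.gal L d M s θ σ γ T
  have cm' : ∀ k : ℕ, σ * γ ^ k = γ ^ k * σ := fun k => Commute.pow_right cm k
  have cg : γ ^ 2 ^ m * γ ^ N = γ ^ N * γ ^ 2 ^ m := pow_mul_comm _ _ _
  have ram := hP.ram L d M s θ σ γ T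
  have eqv := hA.eqv L
  obtain ⟨o1, o2, -⟩ := hA.sub L σ γ m
  have c0 := fix (fun w hw => (ram w hw).1) hR
  have c1 : ∀ g : L ≃ₐ[ℚ] L, g • x = x → g • C = C := fun g hg =>
    nsmul_right_injective two_ne_zero (by
      show 2 • g • C = 2 • C
      rw [smul_comm, ← hC, ← eqv, hg])
  have c2 := c1 (γ ^ 2 ^ m) (by rw [← e, smul_add, smul_smul, ← cm', mul_smul, hβ])
  have b1 : dv L 2 β ∈ Oc γ m := dv_mem hβ
  obtain ⟨E, E1, E2, E3⟩ := hA.h1 L d M m s θ σ γ T (dv L 2 β - C) (sub_mem (o2 b1) c2) (by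
    rw [smul_sub, c0, ← eqv, sub_add_sub_comm, ← map_add, e, hC, two_smul, sub_self])
  obtain ⟨δ, d1, d2⟩ := hA.h90 L d M m s θ σ γ T (γ ^ N • β - β)
    (by rw [smul_sub, smul_smul, cg, mul_smul, hβ])
    (by rw [smul_sub, smul_smul, cm', mul_smul, sub_add_sub_comm, ← smul_add, e, hx, sub_self])
  have d3 : dv L 2 δ ∈ Oc γ m := dv_mem d1
  have E4 : ∀ g : L ≃ₐ[ℚ] L, γ ^ 2 ^ m * g = g * γ ^ 2 ^ m → g • E ∈ Iv γ m := fun g hg => by
    show γ ^ 2 ^ m • g • E = g • E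
    rw [smul_smul, hg, mul_smul, show γ ^ 2 ^ m • E = E from E1]
  have E5 : ∀ (g : L ≃ₐ[ℚ] L) (w : Pr L 2), (d : 𝓞 L) ∈ w.1.asIdeal → (g • E) w = 0 :=
    fun g w hw => (Finsupp.comapSMul_apply g E w).trans
      (E3 _ (ram _ ((mem_smul g⁻¹ w d).2 hw)).1)
  have k1 := (hA.amb L d M m s θ σ γ T hm (E + σ • E) (add_mem E1 (E4 σ (cm' _).symm))
    (by rw [smul_add, smul_smul, σ2, one_smul, add_comm])).1 fun w hw => by
      rw [Finsupp.add_apply, E5 σ w hw, E3 w (ram w hw).1]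
      exact ⟨0, rfl⟩
  obtain ⟨c, k2, k3, k4⟩ := (hA.amb L d M m s θ σ γ T hm (γ ^ N • E - E - dv L 2 δ)
    (sub_mem (sub_mem (E4 _ cg) E1) (o2 d3)) (by
      have a1 := congrArg (γ ^ N • ·) E2
      have a2 := congrArg (dv L 2) d2
      simp only [smul_sub, c1 _ hx, smul_smul, ← cm'] at a1
      simp only [map_sub, eqv] at a2
      simp only [smul_sub, smul_smul]
      linear_combination (norm := abel1) a1 - E2 - a2)).2
  refine ⟨-E, neg_mem E1, -c, neg_mem k2.1, ?_, ?_, fun w hw => ?_⟩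
  · have : 2 • -E - C = -(E + σ • E) - dv L 2 β := by
      linear_combination (norm := abel1) E2
    exact this ▸ sub_mem (neg_mem (o1 k1)) b1
  · have : γ ^ N • -E - -E - -c = -(γ ^ N • E - E - dv L 2 δ - c) - dv L 2 δ := by
      rw [smul_neg]
      abel
    exact this ▸ sub_mem (neg_mem (o1 k4)) d3
  · have s0 : s ≠ 0 := fun h0 => by
      have h1 := T.sq
      rw [h0, zero_pow two_ne_zero, eq_comm, Nat.cast_eq_zero] at h1
      exact T.sqf.ne_zero h1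
    have : (-c) w = ord w.1 δ := by
      rw [Finsupp.neg_apply, k3 w hw, Finsupp.sub_apply, Finsupp.sub_apply, E5 _ w hw,
        E3 w (ram w hw).1, dv_apply, sub_zero, zero_sub, neg_neg]
    rw [d2, this]
    exact sgn (ram w hw).2.2 (S := Un.mk s s0) T.ss ((ram w hw).2.1 _ rfl) δ

end HALF

theorem rowHALF : OfHALF := by
  intro hW hP hA hN
  refine ⟨fun L _ _ d M m n s θ σ γ T _ hm => HALF.half hW hP hA T hm _,
    fun L _ _ d M m s θ σ γ T h1 hm c hc => ?_⟩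
  obtain ⟨m, rfl⟩ : ∃ k, m = k + 1 := ⟨m - 1, by omega⟩
  have f := (hP.fin L d M s θ σ γ T).2.2.2
  have c2 : 2 • c ∈ Rm L d := nsmul_mem hc 2
  obtain ⟨k, ⟨j, rfl⟩, x, hx, e⟩ := (hA.amb L d M m s θ σ γ T (by omega) _ (f m (by omega) c2)
    (HALF.fix (fun w hw => (hP.ram L d M s θ σ γ T w hw).1) c2)).1 fun w _ =>
      ⟨c w, by rw [two_smul, Finsupp.add_apply]⟩
  obtain ⟨β, b1, b2⟩ := hN L d M m s θ σ γ T (by omega) hm x hx.2 hx.1 (e ▸ nsmul_mem c2 _)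
  obtain ⟨E, E1, -, -, E2, -⟩ := HALF.half hW hP hA T hm _ x β ((2 * j + 1) • c) hx.1 b1 b2
    (by rw [← e, smul_comm]) (nsmul_mem hc _)
  refine ⟨E - j • c, sub_mem E1 (nsmul_mem (f _ h1.le hc) j), ?_⟩
  have : 2 • (E - j • c) - c = 2 • E - (2 * j + 1) • c := by module
  rwa [this]

end Pool.Agent.MP_1246c0_nt.H12
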