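import Pool.Agent.MP_1246c0_nt.H25.SpecN

/-! Cancellation for fixed positions. -/

namespace Pool.Agent.MP_1246c0_nt.H25

open Finset Matrix Filter Function Pool.Agent.MP_db5b97_nt.H85
open Pool.Agent.MP_1246c0_nt.H12

namespace CL2

theorem ind_t {p : Prop} (h : p) : ind p = 1 := if_pos h

theorem ind_f {p : Prop} (h : ¬p) : ind p = 0 := if_neg h

theorem ind_nn (p : Prop) : 0 ≤ ind p := by
  unfold ind
  split_ifs <;> norm_num

theorem ind_mono {p q : Prop} (h : p → q) : ind p ≤ ind q := by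
  by_cases hp : p
  · rw [ind_t hp, ind_t (h hp)]
  · rw [ind_f hp]; exact ind_nn q

/-- admissible tuples -/
def Ok (X : ℕ) {m : ℕ} (x : Option (Fin m) → ℕ) : Prop :=
  x.Injective ∧ (∀ i, (x (some i)).Prime ∧ x (some i) ≠ 2 ∧ YY X < x (some i)) ∧
    (x none).Prime ∧ x none % 8 = 5 ∧ YY X < x none

theorem TG_eq (X : ℕ) (Sg : Finset ℕ) (m : ℕ) (Q : (Fin m → ℕ) → Prop)
    (Ψ : (Fin m → ℕ) → ℕ → ℝ) : TG X Sg m (fun p P => ind (Q p) * Ψ p P) =
    ∑ x ∈ Fintype.piFinset fun _ : Option (Fin m) => range (X / ∏ l ∈ Sg, l + 1),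
      if ∏ i, x i ≤ X / ∏ l ∈ Sg, l then ind (Ok X x ∧ Q fun i => x (some i)) *
        ((n5 fun i => x (some i) : ℕ) : ℝ)⁻¹ * Ψ (fun i => x (some i)) (x none) else 0 := by
  refine sum_congr rfl fun x _ => ?_
  by_cases h1 : ∏ i, x i ≤ X / ∏ l ∈ Sg, l
  swap
  · rw [if_neg h1, if_neg fun h => h1 h.2]
  rw [if_pos h1]
  by_cases h2 : Ok X x ∧ Q fun i => x (some i)
  · have : ∏ i : Option (Fin m), (i.elim (wF X) fun _ => wB X) (x i) = 1 :=
      prod_eq_one fun i _ => by
        cases i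
        exacts [if_pos h2.1.2.2, if_pos (h2.1.2.1 _)]
    rw [if_pos ⟨h2.1.1, h1⟩, this]
    simp only [ind_t h2, ind_t h2.2]
    ring
  rw [ind_f h2, zero_mul, zero_mul]
  split_ifs with h3
  swap
  · rfl
  by_cases h4 : Q fun i => x (some i)
  swap
  · simp only [ind_f h4, zero_mul, zero_div, mul_zero]
  refine mul_eq_zero_of_left ?_ _
  by_contra h5
  rw [← ne_eq, prod_ne_zero_iff] at h5
  refine h2 ⟨⟨h3.1, fun i => ?_, ?_⟩, h4⟩
  · by_contra h6
    exact h5 (some i) (mem_univ _) (if_neg h6)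
  · by_contra h6
    exact h5 none (mem_univ _) (if_neg h6)

open Classical in
theorem cell {D : Type} [Fintype D] [DecidableEq D] (A : D → Finset ℕ) (win : D → ℕ → Prop)
    (V L : (D → ℕ) → Prop) (G N : (D → ℕ) → ℝ) {η E E' : ℝ} (hη : 0 ≤ η) (hE : 0 ≤ E)
    (hE' : 0 ≤ E') (hN : ∀ y, 0 ≤ N y ∧ N y ≤ 1) (hV : ∀ y, V y → ∀ o, win o (y o))
    (hG : ∀ y, G y ≠ 0 → L y)
    (hc : ∀ y0, V y0 → ∀ y, (∀ o, win o (y o)) → (L y → V y) ∧ N y = N y0)
    (h1 : ∀ A' : D → Finset ℕ, (∀ o, ∀ y ∈ A' o, y ∈ A o ∧ win o y) →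
      |∑ y ∈ Fintype.piFinset A', G y| ≤ η * ∏ o, ((A' o).card : ℝ) + E)
    (h2 : ∀ A' : D → Finset ℕ, (∀ o, ∀ y ∈ A' o, y ∈ A o ∧ win o y) → ∀ y0, L y0 →
      ∏ o, ((A' o).card : ℝ) ≤ ∑ y ∈ Fintype.piFinset A', ind (L y) + E') :
    |∑ y ∈ Fintype.piFinset A, ind (V y) * N y * G y| ≤
      η * ∑ y ∈ Fintype.piFinset A, ind (V y) * N y + (η * E' + E) := by
  replace h1 := h1 (fun o => (A o).filter (win o)) fun _ _ => mem_filter.1
  replace h2 := h2 (fun o => (A o).filter (win o)) fun _ _ => mem_filter.1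
  have h0 : ∀ y, 0 ≤ ind (V y) * N y := fun y => mul_nonneg (ind_nn _) (hN y).1
  by_cases h : ∃ y0, V y0 ∧ G y0 ≠ 0
  swap
  · rw [sum_eq_zero fun y _ => ?_, abs_zero]
    · have := sum_nonneg fun y (_ : y ∈ Fintype.piFinset A) => h0 y
      positivity
    · by_cases a : V y
      · rw [not_not.1 fun c => h ⟨y, a, c⟩, mul_zero]
      · rw [ind_f a, zero_mul, zero_mul]
  obtain ⟨y0, a0, b0⟩ := h
  have hs : (Fintype.piFinset fun o => (A o).filter (win o)) ⊆ Fintype.piFinset A :=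
    Fintype.piFinset_subset _ _ fun o => filter_subset _ _
  have hw : ∀ y ∈ Fintype.piFinset fun o => (A o).filter (win o), ∀ o, win o (y o) :=
    fun y hy o => (mem_filter.1 (Fintype.mem_piFinset.1 hy o)).2
  have e1 : ∑ y ∈ Fintype.piFinset A, ind (V y) * N y * G y =
      N y0 * ∑ y ∈ Fintype.piFinset fun o => (A o).filter (win o), G y := by
    rw [← sum_subset hs fun y a c => ?_, mul_sum]
    · refine sum_congr rfl fun y hy => ?_
      by_cases c : G y = 0
      · rw [c, mul_zero, mul_zero]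
      · obtain ⟨c1, c2⟩ := hc y0 a0 y (hw y hy)
        rw [ind_t (c1 (hG y c)), c2, one_mul]
    · rw [ind_f fun v => c (Fintype.mem_piFinset.2 fun o =>
        mem_filter.2 ⟨Fintype.mem_piFinset.1 a o, hV y v o⟩), zero_mul, zero_mul]
  have e2 : N y0 * ∑ y ∈ Fintype.piFinset fun o => (A o).filter (win o), ind (L y) ≤
      ∑ y ∈ Fintype.piFinset A, ind (V y) * N y := by
    rw [mul_sum]
    refine (sum_le_sum fun y hy => ?_).trans (sum_le_sum_of_subset_of_nonneg hs fun y _ _ => h0 y)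
    obtain ⟨c1, c2⟩ := hc y0 a0 y (hw y hy)
    rw [c2, mul_comm]
    exact mul_le_mul_of_nonneg_right (ind_mono c1) (hN y0).1
  obtain ⟨n0, n1⟩ := hN y0
  rw [e1, abs_mul, abs_of_nonneg n0]
  have e3 := mul_le_mul_of_nonneg_left (h2 y0 (hG y0 b0)) hη
  have e4 := mul_le_mul_of_nonneg_left (h1.trans (add_le_add_left e3 E)) n0
  have e5 := mul_le_mul_of_nonneg_left e2 hη
  have e6 : N y0 * (η * E' + E) ≤ η * E' + E := mul_le_of_le_one_left (by positivity) n1
  nlinarith

theorem ext_rel {D ι : Type} {f : D → ι} (hf : f.Injective) {y y0 : D → ℕ} (xs : ι → ℕ)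
    (R : ℕ → ℕ → Prop) (h1 : ∀ o, R (y o) (y0 o)) (h2 : ∀ a, R a a) (l : ι) :
    R (extend f y xs l) (extend f y0 xs l) := by
  by_cases h : ∃ o, f o = l
  · obtain ⟨o, rfl⟩ := h
    rw [hf.extend_apply, hf.extend_apply]
    exact h1 o
  · rw [extend_apply' _ _ _ h, extend_apply' _ _ _ h]
    exact h2 _

theorem ext_prs {D : Type} {Sg : Finset ℕ} {m : ℕ} {r : D → Fin m} (hr : r.Injective)
    (y : D → ℕ) (xs : Option (Fin m) → ℕ) :
    (prs Sg fun i => extend (fun o => some (r o)) y xs (some i)) =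
      extend (fun o => (.inr (r o) : Sg ⊕ Fin m)) y (prs Sg fun i => xs (some i)) := by
  funext l
  rcases l with l | i
  · rw [extend_apply' _ _ _ (by simp)]
    rfl
  · by_cases h : ∃ o, r o = i
    · obtain ⟨o, rfl⟩ := h
      exact (((Option.some_injective _).comp hr).extend_apply y xs o).trans
        ((Sum.inr_injective.comp hr).extend_apply y _ o).symm
    · exact (extend_apply' _ _ _ (by simpa using h)).trans
        (extend_apply' y (prs Sg fun i => xs (some i)) (.inr i) (by simpa using h)).symm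

theorem lb_inj {Sg : Finset ℕ} {m : ℕ} {x : Option (Fin m) → ℕ} {i1 : Sg ⊕ Fin m}
    (h : Lb (prs Sg fun i => x (some i)) (x none) i1) : x.Injective := by
  rintro (_ | i) (_ | j) e
  · rfl
  · exact absurd e.symm (h.ne (.inr j))
  · exact absurd e (h.ne (.inr i))
  · rw [Sum.inr_injective (h.inj (a₁ := .inr i) (a₂ := .inr j) e)]

/-- the window of a position -/
def Wn (X n : ℕ) {k : ℕ} : Option (Option (Fin k)) → ℕ → Prop
  | some (some _), y => T1 X n y
  | _, y => T2 X n y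

variable {X n k : ℕ}

theorem Wn.md {o : Option (Option (Fin k))} {y : ℕ} (h : Wn X n o y) : y % 2 ^ (n + 3) = 1 := by
  rcases o with _ | _ | _
  exacts [h.2, h.2, h.2.2]

theorem Wn.m8 {o : Option (Option (Fin k))} {y : ℕ} (h : Wn X n o y) : y % 8 = 1 := by
  rw [← Nat.mod_mod_of_dvd y (show 8 ∣ 2 ^ (n + 3) from ⟨2 ^ n, by ring⟩), h.md]

theorem Wn.iff (hZ : Z1 X ≤ Y2 X) {o : Option (Option (Fin k))} {y y' : ℕ} (h : Wn X n o y)
    (h' : Wn X n o y') : (T1 X n y ↔ T1 X n y') ∧ (T2 X n y ↔ T2 X n y') := by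
  have k1 : ∀ q, T1 X n q → ¬T2 X n q := fun q a c => by
    have := a.2.1
    have := c.1
    omega
  rcases o with _ | _ | _
  · exact ⟨iff_of_false (fun a => k1 _ a h) fun a => k1 _ a h', iff_of_true h h'⟩
  · exact ⟨iff_of_false (fun a => k1 _ a h) fun a => k1 _ a h', iff_of_true h h'⟩
  · exact ⟨iff_of_true h h', iff_of_false (k1 _ h) (k1 _ h')⟩

open Classical in
theorem pat_wn {ι : Type} [Fintype ι] [DecidableEq ι] {pr : ι → ℕ} {J1 J2 : Finset ι}
    {e : Option (Fin k) ↪ ι} {b : ι} (hP : Pt J1 J2 e b) (h : Ja X n pr = J1 ∧ Jb X n pr = J2)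
    (o : Option (Option (Fin k))) : Wn X n o (pr (eb e b o)) := by
  obtain ⟨rfl, rfl⟩ := h
  rcases o with _ | _ | s
  exacts [(mem_filter.1 hP.2.2.1).2, (mem_filter.1 hP.2.1).2, (mem_filter.1 (hP.1 s)).2]

theorem shell {Sg : Finset ℕ} {m j : ℕ} {x : Option (Fin m) → ℕ} {θ : ℝ} (hθ : 0 < θ)
    (hs : 0 < ∏ l ∈ Sg, l) (hY : 1 ≤ θ * YY X) (hx : Ok X x)
    (h : ((X / ∏ l ∈ Sg, l : ℕ) : ℝ) < (1 + θ) ^ j * ∏ i, (x i : ℝ)) :
    (X : ℝ) < (1 + θ) ^ (j + 1) * dd (prs Sg fun i => x (some i)) (x none) := by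
  have e : dd (prs Sg fun i => x (some i)) (x none) = (∏ l ∈ Sg, l) * ∏ i, x i := by
    rw [dd, Fintype.prod_sum_type, Fintype.prod_option, ← prod_coe_sort Sg]
    simp only [prs, Sum.elim_inl, Sum.elim_inr]
    ring
  have h1 : YY X ≤ ∏ i, x i := by
    rw [Fintype.prod_option]
    exact hx.2.2.2.2.le.trans (Nat.le_mul_of_pos_right _ (prod_pos fun i _ => (hx.2.1 i).1.pos))
  have h2 : (X : ℝ) < (∏ l ∈ Sg, l : ℕ) * ((X / ∏ l ∈ Sg, l : ℕ) + 1) := by
    exact_mod_cast Nat.lt_mul_div_succ X hs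
  rw [← Nat.cast_prod] at h
  rw [e, Nat.cast_mul]
  have h3 : (YY X : ℝ) ≤ (∏ i, x i : ℕ) := by exact_mod_cast h1
  have h4 : (0 : ℝ) < (∏ l ∈ Sg, l : ℕ) := by exact_mod_cast hs
  have h5 : (1 : ℝ) ≤ (1 + θ) ^ j := one_le_pow₀ (by linarith)
  have h6 : 1 ≤ (1 + θ) ^ j * (θ * (∏ i, x i : ℕ)) :=
    one_le_mul_of_one_le_of_one_le h5 (hY.trans (by gcongr))
  refine h2.trans_le ?_
  rw [mul_left_comm, pow_succ]
  gcongr
  linarith

theorem fin_bd {N m c B C C1 : ℕ} {η θ a L : ℝ} (hθ : 0 < θ)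
    (ha : 0 ≤ a) (hL : a + 2 ≤ L) (hm : m ≤ N) (hc : c ≤ B ^ (N + 1))
    (hC : C1 + ⌈η⌉₊ * (k + 2) + B + ⌈2 / θ⌉₊ + (2 * k + 7) ≤ C) :
    (η * ((k + 2) * (N + 1)) + C1) * ((c * (2 * a / θ + 2)) ^ (k + 2) * (a + 2) ^ (m + 1)) ≤
      (C * L) ^ (C * (N + 1)) := by
  have c7 : (2 : ℝ) ≤ C := by exact_mod_cast (by omega : 2 ≤ C)
  have q1 : (C : ℝ) ≤ C * L := by nlinarith
  have q2 : L ≤ C * L := by nlinarith
  have q3 : 1 ≤ C * L := by linarith
  have a1 : η * ((k + 2) * (N + 1)) + C1 ≤ (C * L) ^ (2 * (N + 1)) := by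
    have b1 : ((N + 1 : ℕ) : ℝ) ≤ 2 ^ (N + 1) := by exact_mod_cast Nat.lt_two_pow_self.le
    have b2 : ((C1 + ⌈η⌉₊ * (k + 2) : ℕ) : ℝ) ≤ C := by exact_mod_cast (by omega : _ ≤ C)
    have b3 := Nat.le_ceil η
    push_cast at b1 b2
    calc _ ≤ (C1 + ⌈η⌉₊ * (k + 2) : ℝ) * (N + 1) := by
          have : η * ((k + 2) * (N + 1)) ≤ ⌈η⌉₊ * ((k + 2) * (N + 1)) := by gcongr
          have : (0 : ℝ) ≤ C1 * N := by positivity
          nlinarith
      _ ≤ (C * L) ^ (N + 1) * (C * L) ^ (N + 1) := by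
          gcongr
          · exact (b2.trans q1).trans (le_self_pow₀ q3 (by omega))
          · exact b1.trans (pow_le_pow_left₀ (by norm_num) (by linarith) _)
      _ = _ := by ring
  have a2 : c * (2 * a / θ + 2) ≤ (C * L) ^ (2 * (N + 1)) := by
    have b1 : (c : ℝ) ≤ (C * L) ^ (N + 1) := by
      have b2 : (B : ℝ) ≤ C := by exact_mod_cast (by omega : B ≤ C)
      exact (show (c : ℝ) ≤ B ^ (N + 1) by exact_mod_cast hc).trans
        (pow_le_pow_left₀ (by positivity) (b2.trans q1) _)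
    have b2 : 2 / θ ≤ C := (Nat.le_ceil _).trans (by exact_mod_cast (by omega : _ ≤ C))
    have b3 : 2 * a / θ + 2 ≤ C * L := by
      have : 2 * a / θ = 2 / θ * a := by ring
      nlinarith
    calc _ ≤ (C * L) ^ (N + 1) * (C * L) ^ (N + 1) := by
          gcongr
          exact b3.trans (le_self_pow₀ q3 (by omega))
      _ = _ := by ring
  calc _ ≤ (C * L) ^ (2 * (N + 1)) * (((C * L) ^ (2 * (N + 1))) ^ (k + 2) * (C * L) ^ (N + 1)) := by
        gcongr ?_ * (?_ ^ _ * ?_)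
        exact (pow_le_pow_left₀ (by linarith) (hL.trans q2) _).trans
          (pow_le_pow_right₀ q3 (by omega))
    _ = (C * L) ^ ((2 * k + 7) * (N + 1)) := by ring
    _ ≤ _ := pow_le_pow_right₀ q3 (Nat.mul_le_mul_right _ (by omega))

end CL2

open CL2 Classical in
theorem rowCL2 : OfCL2 := by
  intro hD hB hA h1 hL ℓ k n κ η θ hk hη hθ hθ1
  obtain ⟨C1, hC1, h1⟩ := h1 ℓ k n κ η hk hη
  obtain ⟨B, hBd⟩ : ∃ B, B = Fintype.card (Ow n × Co n) * Fintype.card (Co n × Co n) := ⟨_, rfl⟩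
  refine ⟨C1 + ⌈η⌉₊ * (k + 2) + B + ⌈2 / θ⌉₊ + (2 * k + 7), by omega, ?_⟩
  generalize hC : C1 + ⌈η⌉₊ * (k + 2) + B + ⌈2 / θ⌉₊ + (2 * k + 7) = C
  intro S μ J X Sg m i1 J1 J2 e b cf δ hS hn hμ hJ hcf hSg h5 hP hYZ hθY hbil hδ hZ hZ'
  have hY : 1 ≤ YY X := by
    rcases Nat.eq_zero_or_pos (YY X) with a | a
    · rw [a] at hδ; norm_num at hδ
    · exact a
  have hY0 : (0 : ℝ) < YY X := by exact_mod_cast hY
  have hδ0 : 0 ≤ δ := by nlinarith
  have hZY : Z1 X ≤ Y2 X := ((by omega : Z1 X ≤ 2 * Z1 X).trans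
    (Nat.le_self_pow (by omega) _)).trans hZ
  have hlog := Real.log_natCast_nonneg X
  have hSg' : ∀ l ∈ Sg, l.Prime ∧ l ≤ YY X := fun l a => by
    have := mem_filter.1 (mem_powerset.1 (mem_filter.1 hSg).1 a)
    exact ⟨this.2.1, Nat.lt_succ_iff.1 (mem_range.1 this.1)⟩
  have hs : 0 < ∏ l ∈ Sg, l := prod_pos fun l a => (hSg' l a).1.pos
  by_cases hp : ∃ p : Fin m → ℕ, Ja X n (prs Sg p) = J1 ∧ Jb X n (prs Sg p) = J2
  swap
  · have z : ∀ p : Fin m → ℕ, ind (Ja X n (prs Sg p) = J1 ∧ Jb X n (prs Sg p) = J2) = 0 :=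
      fun p => ind_f fun a => hp ⟨p, a⟩
    simp only [z, zero_mul, TG, TS, TS0, zero_div, mul_zero, ite_self, sum_const_zero, abs_zero,
      zero_add]
    positivity
  obtain ⟨p0, hp0⟩ := hp
  have w0 := pat_wn hP hp0
  have hwY : ∀ {o : Option (Option (Fin k))} {y}, Wn X n o y → YY X < y := fun {o y} a => by
    rcases o with _ | _ | _
    exacts [(hYZ.trans hZY).trans_lt a.1, (hYZ.trans hZY).trans_lt a.1, a.1]
  have hr : ∀ o, ∃ i, eb e b o = .inr i := fun o => by
    have := hwY (w0 o)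
    rcases h : eb e b o with l | i
    · rw [h] at this
      exact absurd (hSg' l.1 l.2).2 (not_le.2 this)
    · exact ⟨i, rfl⟩
  choose r hr using hr
  have heb : ∀ o, e o ≠ b := by
    rintro (_ | s) a
    · exact hP.2.2.2 a
    · have b1 : T1 X n (prs Sg p0 (e (some s))) := w0 (some (some s))
      have b2 : T2 X n (prs Sg p0 b) := w0 none
      rw [a] at b1
      have := b1.2.1
      have := b2.1
      omega
  have hinj : (eb e b).Injective := by
    rintro (_ | o) (_ | o') a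
    · rfl
    · exact absurd a.symm (heb o')
    · exact absurd a (heb o)
    · rw [e.injective a]
  have hre : eb e b = fun o => .inr (r o) := funext hr
  have hri : r.Injective := fun o o' a => hinj (by rw [hr, hr, a])
  have hri' : (fun o => some (r o)).Injective := (Option.some_injective _).comp hri
  have hx : ∀ y xs, (prs Sg fun i => extend (fun o => some (r o)) y xs (some i)) =
      extend (eb e b) y (prs Sg fun i => xs (some i)) := fun y xs => hre ▸ ext_prs hri y xs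
  have hx0 : ∀ y (xs : Option (Fin m) → ℕ), extend (fun o => some (r o)) y xs none = xs none :=
    fun y xs => extend_apply' _ _ _ (by simp)
  have hN : ∀ p : Fin m → ℕ, 0 ≤ (n5 p : ℝ)⁻¹ ∧ (n5 p : ℝ)⁻¹ ≤ 1 := fun p =>
    ⟨by positivity, inv_le_one_of_one_le₀ (by exact_mod_cast Nat.le_add_right _ _)⟩
  have hf := fun P pr => hA.bd _ ℓ k κ S μ pr P J (.inl i1) b e cf hS hμ hk hJ hcf
  obtain ⟨Cf, hCf⟩ : ∃ Cf : ℝ, Cf = 2 ^ (κ * (k + 1) + ℓ) := ⟨_, rfl⟩
  rw [← hCf] at hf ⊢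
  have hCf0 : 0 < Cf := by rw [hCf]; positivity
  obtain ⟨T, hT⟩ : ∃ T, T = X / ∏ l ∈ Sg, l := ⟨_, rfl⟩
  have hTX : T ≤ X := hT ▸ Nat.div_le_self _ _
  have hcard : Fintype.card (Sg ⊕ Fin m) = Sg.card + m := by simp
  have hcD : Fintype.card (Option (Option (Fin k))) = k + 2 := by simp
  obtain ⟨V, hV⟩ : ∃ V : (Option (Fin m) → ℕ) → Prop, V = fun x => Ok X x ∧
    Ja X n (prs Sg fun i => x (some i)) = J1 ∧ Jb X n (prs Sg fun i => x (some i)) = J2 := ⟨_, rfl⟩
  have hnn : ∀ x, 0 ≤ ind (V x) * ((n5 fun i => x (some i) : ℕ) : ℝ)⁻¹ := fun x =>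
    mul_nonneg (ind_nn _) (hN _).1
  have key := hB (Option (Fin m)) (Option (Option (Fin k))) _ (fun o => some (r o)) T
    (fun xs y => cl S n (xs none) e b (prs Sg fun i => xs (some i)) y)
    (fun x => ind (V x) * ((n5 fun i => x (some i) : ℕ) : ℝ)⁻¹ *
      fv S.Φ μ (x none) (.inl i1) e b κ cf (prs Sg fun i => x (some i)))
    (fun x => Cf * (ind (V x) * ((n5 fun i => x (some i) : ℕ) : ℝ)⁻¹)) (η / Cf)
    ((η * ((k + 2) * ((Sg.card + m : ℕ) + 1)) + C1) * δ) θ hri' (by positivity) (by positivity)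
    hθ hθ1 (fun x => by
      rw [abs_mul, abs_of_nonneg (hnn x), mul_comm Cf]
      refine mul_le_mul_of_nonneg_left ((hf _ _).trans ?_) (hnn x)
      exact mul_le_of_le_one_right hCf0.le (ind_mono (q := True) (fun _ => trivial) |>.trans
        (ind_t trivial).le)) (fun x i a => by
      rw [ind_f, zero_mul, mul_zero]
      rw [hV]
      rintro ⟨c, -⟩
      cases i
      · exact c.2.2.1.ne_zero a
      · exact (c.2.1 _).1.ne_zero a) fun xs A U hAU hU => by
      have hU0 : (0 : ℝ) ≤ ∏ o, (U o : ℝ) := by positivity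
      have := cell A (fun o y => y.Prime ∧ y ≠ 2 ∧ Wn X n o y)
        (fun y => V (extend (fun o => some (r o)) y xs))
        (fun y => Lb (extend (eb e b) y (prs Sg fun i => xs (some i))) (xs none) (.inl i1))
        (fun y => fv S.Φ μ (xs none) (.inl i1) e b κ cf
          (extend (eb e b) y (prs Sg fun i => xs (some i))))
        (fun y => ((n5 fun i => extend (fun o => some (r o)) y xs (some i) : ℕ) : ℝ)⁻¹)
        (E := C1 * δ * ∏ o, (U o : ℝ))
        (E' := (k + 2) * ((Sg.card + m : ℕ) + 1) * (δ * ∏ o, (U o : ℝ))) hη.le (by positivity)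
        (by positivity) (fun y => hN _) (fun y a o => by
          rw [hV] at a
          have c := a.1.2.1 (r o)
          have d := pat_wn hP a.2 o
          rw [hx, hinj.extend_apply] at d
          rw [hri'.extend_apply y xs o] at c
          exact ⟨c.1, c.2.1, d⟩) (fun y a => by
          by_contra c
          have := hf (xs none) (extend (eb e b) y (prs Sg fun i => xs (some i)))
          rw [ind_f c, mul_zero] at this
          exact a (abs_nonpos_iff.1 this)) (fun y0 a y w => by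
          rw [hV] at a ⊢
          have w' : ∀ o, Wn X n o (y0 o) := fun o => by
            have d := pat_wn hP a.2 o
            rwa [hx, hinj.extend_apply] at d
          refine ⟨fun c => ⟨⟨lb_inj (Sg := Sg) (by rwa [hx, hx0]), fun i => ?_, ?_⟩, ?_⟩, ?_⟩
          · exact ext_rel hri' xs (fun q q' => q'.Prime ∧ q' ≠ 2 ∧ YY X < q' →
              q.Prime ∧ q ≠ 2 ∧ YY X < q) (fun o _ => ⟨(w o).1, (w o).2.1, hwY (w o).2.2⟩)
              (fun _ => id) _ (a.1.2.1 i)
          · have := a.1.2.2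
            rwa [hx0] at this ⊢
          · have d := ext_rel hinj (prs Sg fun i => xs (some i))
              (fun q q' => (T1 X n q ↔ T1 X n q') ∧ (T2 X n q ↔ T2 X n q'))
              (fun o => (w o).2.2.iff hZY (w' o)) fun _ => ⟨Iff.rfl, Iff.rfl⟩
            have a2 := a.2
            rw [hx] at a2 ⊢
            exact ⟨(filter_congr fun l _ => (d l).1).trans a2.1,
              (filter_congr fun l _ => (d l).2).trans a2.2⟩
          · unfold n5
            rw [filter_congr fun i _ => ext_rel (y := y) (y0 := y0) hri' xs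
              (fun q q' => q % 8 = 5 ↔ q' % 8 = 5) (fun o => by rw [(w o).2.2.m8, (w' o).m8]) (fun _ => Iff.rfl) (some i)])
        (fun A' hA' => h1 _ S μ J _ _ b e _ cf A' U (YY X) (Z1 X) (Y2 X) X δ hS hn hμ hJ heb hcf
          (fun o y a => by
            obtain ⟨a1, a2, a3, a4⟩ := hA' o y a
            have := (((hD.cls y (a2.eq_two_or_odd.resolve_left a3) a2.one_lt).2.2
              (n + 1)).1.2 a4.md).1
            exact ⟨⟨a2, a3, by omega⟩, hwY a4, (hAU o y a1).1⟩)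
          (fun s y a => (hA' _ y a).2.2.2.2.1)
          (fun y a => (mem_union.1 a).elim (fun c => (hA' _ y c).2.2.2.1)
            fun c => (hA' _ y c).2.2.2.1)
          (fun o y a y' a' => (hAU o y (hA' o y a).1).2 y' (hA' o y' a').1)
          (hU.trans hTX) hbil hδ ((Nat.pow_le_pow_right (by omega) (by omega)).trans hZ) (by
            have z1 : (1 : ℝ) ≤ Z1 X := by exact_mod_cast hY.trans hYZ
            have z2 : (1 : ℝ) ≤ Y2 X := by exact_mod_cast (hY.trans hYZ).trans hZY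
            have z3 : C1 ≤ C := by omega
            rw [hcard]
            refine le_trans (by gcongr <;> linarith) (hZ'.trans (mul_le_mul_of_nonneg_left
              (Real.rpow_le_rpow_of_exponent_le z2 ?_) hδ0))
            exact one_div_le_one_div_of_le (by exact_mod_cast hC1) (by exact_mod_cast z3)))
        fun A' hA' y0 a => by
          have := hL _ _ (eb e b) _ (xs none) (YY X) (.inl i1) A' U y0 hinj
            (fun o => by rw [hr]; exact Sum.inr_ne_inl) a fun o y c => by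
              obtain ⟨a1, a2, a3, a4⟩ := hA' o y c
              exact ⟨⟨a2, a3, Nat.zero_le _⟩, hwY a4, (hAU o y a1).1⟩
          rw [hcard, hcD] at this
          refine le_of_mul_le_mul_left (this.trans ?_) hY0
          have := mul_le_mul_of_nonneg_right hδ (show (0 : ℝ) ≤ (k + 2) *
            ((Sg.card + m : ℕ) + 1) * ∏ o, (U o : ℝ) by positivity)
          push_cast at this ⊢
          linarith
      simp only [hx, hx0]
      rw [← mul_sum, ← mul_assoc, div_mul_cancel₀ _ hCf0.ne']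
      exact this.trans (le_of_eq (by ring))
  have t1 := TG_eq X Sg m (fun p => Ja X n (prs Sg p) = J1 ∧ Jb X n (prs Sg p) = J2) fun _ _ => 1
  simp only [mul_one] at t1
  rw [TG_eq, TG_eq, t1, ← hT]
  subst hV
  refine key.trans (add_le_add (add_le_add (le_of_eq ?_) ?_) ?_)
  · rw [div_mul_eq_mul_div, mul_div_assoc, sum_div]
    congr 1
    refine sum_congr rfl fun x _ => ?_
    split_ifs
    · exact mul_div_cancel_left₀ _ hCf0.ne'
    · exact zero_div _
  · rw [mul_sum]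
    refine sum_le_sum fun x _ => ?_
    split_ifs
    swap
    · rw [mul_zero]
    rw [mul_assoc]
    refine mul_le_mul_of_nonneg_left ?_ hCf0.le
    by_cases a : Ok X x
    · rw [hcD, hT]
      exact mul_le_mul_of_nonneg_left (ind_mono (shell hθ hs hθY a)) (hnn x)
    · rw [ind_f fun c => a c.1, zero_mul, zero_mul, zero_mul]
  · have c1 : Fintype.card (Ow n × Co n × (Sg ⊕ Fin m → Co n × Co n)) ≤ B ^ (Sg.card + m + 1) := by
      have c2 : 1 ≤ Fintype.card (Ow n × Co n) := Fintype.card_pos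
      have c3 : 1 ≤ Fintype.card (Co n × Co n) := Fintype.card_pos
      rw [Fintype.card_congr (Equiv.prodAssoc _ _ _).symm, Fintype.card_prod, Fintype.card_fun,
        hcard, hBd, mul_pow]
      exact Nat.mul_le_mul (Nat.le_self_pow (by omega) _) (Nat.pow_le_pow_right c3 (by omega))
    have c2 : Real.log T + 2 ≤ Real.log X + 2 := by
      rcases Nat.eq_zero_or_pos T with a | a
      · simpa [a] using hlog
      · gcongr
    have := fin_bd (k := k) (η := η) (C1 := C1) hθ (Real.log_natCast_nonneg T) c2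
      (Nat.le_add_left m Sg.card) c1 hC.le
    rw [hcD, Fintype.card_option, Fintype.card_fin]
    refine le_trans (le_of_eq (by ring)) (mul_le_mul_of_nonneg_right
      (mul_le_mul_of_nonneg_left this hδ0) (Nat.cast_nonneg T))

end Pool.Agent.MP_1246c0_nt.H25
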