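import Pool.Agent.MP_1246c0_nt.H25.SpecG

/-! Cancellation on an abstract grid: a union bound over all codes. -/

namespace Pool.Agent.MP_1246c0_nt.H25

open Finset Function Filter
open Pool.Agent.MP_1246c0_nt.H12

namespace GRA

theorem big (k a b : ℕ) (C C' : ℝ) {c η : ℝ} (hC : 0 ≤ C) (hc : 0 < c) (hη : 0 < η) :
    ∃ M : ℕ, 1 ≤ M ∧ C' ≤ η * M ∧
      C * M ^ a * 2 ^ (M ^ k * b) * Real.exp (-(2 * c * M ^ (k + 1))) ≤ η := by
  have h0 : ∀ {e : ℝ} (x : ℝ), 0 < e → ∀ᶠ M : ℕ in atTop, x ≤ e * M := fun x he =>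
    (tendsto_natCast_atTop_atTop.const_mul_atTop he).eventually_ge_atTop x
  have h1 := ((tendsto_rpow_mul_exp_neg_mul_atTop_nhds_zero a c hc).comp
    tendsto_natCast_atTop_atTop).const_mul C
  rw [mul_zero] at h1
  obtain ⟨M, m1, m2, m3, m4⟩ := ((eventually_ge_atTop 1).and ((h0 C' hη).and ((h0 b hc).and
    (h1.eventually_le_const hη)))).exists
  refine ⟨M, m1, m2, le_trans ?_ m4⟩
  have hM : (1 : ℝ) ≤ M := by exact_mod_cast m1
  have e1 : (2 : ℝ) ^ (M ^ k * b) ≤ Real.exp (c * M ^ (k + 1)) := by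
    refine (pow_le_pow_left₀ zero_le_two (Real.add_one_le_exp 1 |>.trans' (by norm_num)) _).trans ?_
    rw [← Real.exp_nat_mul, mul_one, Real.exp_le_exp, pow_succ, mul_left_comm]
    push_cast
    gcongr
  have e2 : c * M ≤ c * M ^ (k + 1) := by
    gcongr
    exact le_self_pow₀ hM k.succ_ne_zero
  rw [comp_apply, Real.rpow_natCast, mul_assoc, mul_assoc]
  gcongr
  refine (mul_le_mul_of_nonneg_right e1 (Real.exp_pos _).le).trans ?_
  rw [← Real.exp_add, Real.exp_le_exp]
  linarith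

theorem res {k : ℕ} {Z : Type} (o : Option (Fin k)) (z : Z) (x : Option (Fin k) → Z) :
    (fun t => (Equiv.swap none o t).elim z fun s => x (Equiv.swap none o (some s))) =
      update x o z := by
  funext t
  by_cases h : t = o
  · simp [h]
  · rw [update_of_ne h]
    rcases e : Equiv.swap none o t with _ | s
    · exact (h (by simpa using congrArg (Equiv.swap none o) e)).elim
    · rw [Option.elim_some, ← e, Equiv.swap_apply_self]

end GRA

open GRA in
theorem rowGRA : OfGRA := by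
  classical
  intro hC hH k n B K η hη
  obtain ⟨Ka, Kb, hK⟩ := hC (k + 1) B K (η / 2) (half_pos hη)
  obtain ⟨M, h1, h2, h3⟩ := big k ((k + 1) * Ka) Kb
    (2 * 2 ^ 2 ^ n * (k + 1) ^ Kb * (Ka * 4) ^ 2 ^ Kb) (4 * ((k + 1) * Ka)) (c := η ^ 2 / 64)
    (by positivity) (by positivity) hη
  let T := (ZMod (2 ^ n) → F2) × (Fin Ka → Option (Fin k) → Fin M) × (Fin Kb → Option (Fin k)) ×
    (Fin Kb → (Fin k → Fin M) → F2) × ((Fin Kb → F2) → Fin Ka × F2 × F2)
  let bt : T → (Option (Fin k) → Fin M) → Fin Ka × F2 × F2 := fun p x =>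
    p.2.2.2.2 fun c => p.2.2.2.1 c fun s => x (Equiv.swap none (p.2.2.1 c) (some s))
  let bad : T → Finset (Fin M → Xi n (Fin k × Fin M) → F2) := fun p => univ.filter fun G =>
    p.1 0 = 1 ∧ η / 2 * M ^ (k + 1) <
      |∑ x, ind ((bt p x).2.1 = 1) * sg ((bt p x).2.2 + Hg p.1 G (p.2.1 (bt p x).1) x)|
  refine ⟨M, h1, univ.biUnion bad, ?_, fun G hG lam ty rk C F t0 h0 hA hl => ?_⟩
  · have hb : ∀ p ∈ univ, ((bad p).card : ℝ) ≤ 2 * Real.exp (-((η / 2) ^ 2 * M ^ (k + 1) / 8)) *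
        Nat.card (Fin M → Xi n (Fin k × Fin M) → F2) := fun p _ => by
      by_cases h : p.1 0 = 1
      · refine le_trans (le_of_eq ?_) (hH k n M Ka (η / 2) p.1 p.2.1 (fun x => (bt p x).1)
          (fun x => (bt p x).2.1) (fun x => (bt p x).2.2) (half_pos hη) h (by linarith))
        simp only [bad, h, true_and, Nat.card_eq_fintype_card, Fintype.card_subtype]
      · simp only [bad, h, false_and, filter_false, card_empty, Nat.cast_zero]
        positivity
    refine (Nat.cast_le.2 card_biUnion_le).trans ?_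
    rw [Nat.cast_sum]
    refine (sum_le_card_nsmul _ _ _ hb).trans ?_
    rw [nsmul_eq_mul, ← mul_assoc]
    refine mul_le_mul_of_nonneg_right (le_trans (le_of_eq ?_) h3) (Nat.cast_nonneg _)
    rw [show (η / 2) ^ 2 * M ^ (k + 1) / 8 = 2 * (η ^ 2 / 64) * M ^ (k + 1) by ring]
    simp only [T, card_univ, Fintype.card_prod, Fintype.card_fun, ZMod.card, Fintype.card_fin,
      Fintype.card_option]
    push_cast
    ring
  · have : Nonempty (Fin M) := ⟨⟨0, h1⟩⟩
    obtain ⟨A, oc, β, Ψ, hβ, h⟩ := hK _ _ ty rk C F _ t0 (by simp) hA hl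
    let p : T := (lam, A, oc, fun c y => β (fun t => (Equiv.swap none (oc c) t).elim ⟨0, h1⟩ y) c, Ψ)
    have e : ∀ x, bt p x = Ψ (β x) := fun x =>
      congrArg Ψ (funext fun c => (congrArg (β · c) (res _ _ x)).trans (hβ c x _))
    have h4 : G ∉ bad p := fun h => hG (mem_biUnion.2 ⟨p, mem_univ _, h⟩)
    simp only [bad, mem_filter, mem_univ, true_and, not_and, not_lt, e] at h4
    simp only [Nat.card_eq_fintype_card, Fintype.card_fun, Fintype.card_fin, Fintype.card_option,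
      Nat.cast_pow] at h
    have h5 := abs_le.1 (h4 h0)
    have h6 := abs_le.1 h
    exact abs_le.2 ⟨by linarith [h5.1, h6.1], by linarith [h5.2, h6.2]⟩

end Pool.Agent.MP_1246c0_nt.H25
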