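import Pool.Agent.MP_1246c0_nt.H25.SpecA
import Pool.Agent.MP_db5b97_nt.H21.NT2

/-! The primes above two have bounded order in the class groups of the layers. -/

namespace Pool.Agent.MP_1246c0_nt.H25

open NumberField IsDedekindDomain Finset Pool.Agent.MP_db5b97_nt.H85
open Pool.Agent.MP_1246c0_nt.H12

namespace LEO

/-- multiplication by a function -/
noncomputable def mu {X : Type} (e : X → ℤ) : (X →₀ ℤ) →+ (X →₀ ℤ) where
  toFun D := Finsupp.onFinset D.support (fun v => e v * D v) fun v h =>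
    Finsupp.mem_support_iff.2 (right_ne_zero_of_mul h)
  map_zero' := by ext; simp
  map_add' x y := by ext; simp [mul_add]

theorem mu_apply {X : Type} (e : X → ℤ) (D : X →₀ ℤ) (v : X) : mu e D v = e v * D v := rfl

theorem mem_mu {X : Type} {e : X → ℤ} {D : X →₀ ℤ} (h : ∀ v, e v ∣ D v) : D ∈ (mu e).range :=
  ⟨Finsupp.onFinset D.support (fun v => D v / e v) fun v hv =>
    Finsupp.mem_support_iff.2 fun h0 => hv (by simp [h0]),
    Finsupp.ext fun v => Int.mul_ediv_cancel' (h v)⟩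

theorem mu_index {X Y : Type} [Finite Y] (a : Y → X) {N : ℕ} (hN : N ≠ 0) {e : X → ℤ}
    (hY : Nat.card Y ≤ 2) (he : ∀ x, e x = 1 ∨ (e x = N ∧ ∃ y, a y = x)) :
    (mu e).range.index ≠ 0 ∧ (mu e).range.index ≤ N ^ 2 := by
  have := NeZero.mk hN
  let ρ : (X →₀ ℤ) →+ Y → ZMod N := AddMonoidHom.pi fun y =>
    (Int.castAddHom (ZMod N)).comp (Finsupp.applyAddHom (a y))
  have h1 : ρ.ker ≤ (mu e).range := fun D hD => mem_mu fun x => by
    rcases he x with h | ⟨h, y, rfl⟩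
    · exact h ▸ one_dvd _
    · exact h ▸ (ZMod.intCast_zmod_eq_zero_iff_dvd _ _).1 (congrFun hD y)
  have h2 : ρ.ker.index ≠ 0 := by
    rw [AddSubgroup.index_ker]
    exact Nat.card_pos.ne'
  have h3 := AddSubgroup.index_dvd_of_le h1
  refine ⟨ne_zero_of_dvd_ne_zero h2 h3, (Nat.le_of_dvd (Nat.pos_of_ne_zero h2) h3).trans ?_⟩
  rw [AddSubgroup.index_ker]
  refine (Nat.card_le_card_of_injective _ Subtype.val_injective).trans ?_
  rw [Nat.card_fun, Nat.card_zmod]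
  exact Nat.pow_le_pow_right (Nat.pos_of_ne_zero hN) hY

variable {L : Type} [Field L] [NumberField L]

/-- every prime is prime to one -/
def al (w : Sp L) : Pr L 1 :=
  ⟨w, fun h => w.isPrime.ne_top ((Ideal.eq_top_iff_one _).2 (by simpa using h))⟩

theorem Eu_eq : Eu L = (dv L 1).ker := by
  ext x
  simp only [Eu, AddSubgroup.mem_iInf, AddMonoidHom.mem_ker, Finsupp.ext_iff, dv_apply]
  exact ⟨fun h w => h w.1, fun h w => h (al w)⟩

theorem eqv (g : L ≃ₐ[ℚ] L) (x : Un L) : dv L 1 (g • x) = g • dv L 1 x := by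
  refine Finsupp.ext fun w => ?_
  obtain ⟨v, rfl⟩ := MulAction.surjective g w
  exact (NT2.ord_smul L _ g v.1 x).trans
    ((NT2.pm_apply g (dv L 1 x) _).trans (congrArg _ (inv_smul_smul g v))).symm

theorem prin {x : Un L} {w : Sp L} {n : ℕ} (h : dv L 1 x = n • Finsupp.single (al w) 1) :
    (w.asIdeal ^ n).IsPrincipal := by
  have h0 : w.asIdeal ^ n ≠ ⊥ := pow_ne_zero _ w.ne_bot
  rw [← dI_pr, ← dI_pow (al w).1.ne_bot] at h
  have h1 : ∀ v : Sp L, ord v x = multiplicity v.asIdeal (w.asIdeal ^ n) := fun v =>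
    (DFunLike.congr_fun h (al v)).trans (dI_apply h0 _)
  obtain ⟨a, ha⟩ := HeightOneSpectrum.mem_integers_of_valuation_le_one L x.val fun v => by
    rw [val_eq_exp, h1, ← WithZero.exp_zero, WithZero.exp_le_exp]
    omega
  have h2 : a ≠ 0 := fun e => x.val_ne (by rw [← ha, e, map_zero])
  have h3 : Ideal.span {a} ≠ ⊥ := by simpa using h2
  have k : ∀ p : Ideal (𝓞 L), Prime p →
      emultiplicity p (w.asIdeal ^ n) = emultiplicity p (Ideal.span {a}) := fun p hp => by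
    have h4 := h1 ⟨p, Ideal.isPrime_of_prime hp, hp.ne_zero⟩
    rw [show x = mkI a h2 from Un.ext ha.symm, ord_mkI, Nat.cast_inj] at h4
    rw [(FiniteMultiplicity.of_prime_left hp h0).emultiplicity_eq_multiplicity,
      (FiniteMultiplicity.of_prime_left hp h3).emultiplicity_eq_multiplicity, h4]
  exact ⟨a, dvd_antisymm
    ((UniqueFactorizationMonoid.dvd_iff_emultiplicity_le h0).2 fun p hp => (k p hp).le)
    ((UniqueFactorizationMonoid.dvd_iff_emultiplicity_le h3).2 fun p hp => (k p hp).ge)⟩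

theorem zp_fix {G X : Type} [Group G] [MulAction G X] {g : G} {x : X} (h : g • x = x)
    (s : Subgroup.zpowers g) : (s : G) • x = x :=
  (Subgroup.zpowers_le_of_mem (H := MulAction.stabilizer G x) h) s.2

/-- the theorem of Hilbert for a cyclic group -/
theorem h90 (γ : L ≃ₐ[ℚ] L) : (Df γ : Un L →+ Un L).range = (Nm γ (orderOf γ)).ker := by
  have hp := orderOf_pos γ
  refine le_antisymm ?_ fun x h0 => ?_
  · rintro _ ⟨y, rfl⟩
    have h := Finset.sum_range_sub (fun i => γ ^ i • y) (orderOf γ)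
    rw [pow_orderOf_eq_one, pow_zero, sub_self] at h
    rw [AddMonoidHom.mem_ker, Nm_apply, ← h]
    exact Finset.sum_congr rfl fun i _ => by rw [Df_apply, smul_sub, pow_succ, mul_smul]
  obtain ⟨t, ht⟩ := NT2.ded (fun i : Fin (orderOf γ) =>
      (MulSemiringAction.toRingHom _ L (γ ^ (i : ℕ))).toMonoidHom)
    (fun i j h => Fin.ext (pow_injOn_Iio_orderOf i.2 j.2
      (AlgEquiv.ext fun t => DFunLike.congr_fun h t)))
    (fun i => (Nm γ i x).val) ⟨0, hp⟩ (Un.val_ne _)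
  change ∑ j : Fin (orderOf γ), (fun j : ℕ => (Nm γ j x).val * γ ^ j • t) j ≠ 0 at ht
  rw [← Finset.sum_range fun j : ℕ => (Nm γ j x).val * γ ^ j • t] at ht
  refine ⟨-Un.mk _ ht, Un.ext ?_⟩
  have e : x.val * γ • ∑ j ∈ Finset.range (orderOf γ), (Nm γ j x).val * γ ^ j • t =
      ∑ j ∈ Finset.range (orderOf γ), (Nm γ j x).val * γ ^ j • t := by
    have h3 := Finset.sum_range_succ (fun j => (Nm γ j x).val * γ ^ j • t) (orderOf γ)
    rw [Finset.sum_range_succ', AddMonoidHom.mem_ker.1 h0, pow_orderOf_eq_one] at h3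
    simp only [Nm_apply γ 0, Finset.range_zero, Finset.sum_empty, pow_zero, add_left_inj] at h3
    rw [Finset.smul_sum, Finset.mul_sum, ← h3]
    refine Finset.sum_congr rfl fun i _ => ?_
    rw [NT2.Nm_succ, Un.val_add, Un.val_smul, smul_mul', pow_succ', mul_smul]
    ring
  have h4 : γ • ∑ j ∈ Finset.range (orderOf γ), (Nm γ j x).val * γ ^ j • t ≠ 0 :=
    fun h => ht ((smul_eq_zero_iff_eq γ).1 h)
  rw [Df_apply, smul_neg, neg_sub_neg, Un.val_sub, Un.val_smul, Un.val_mk, div_eq_iff h4, e]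

variable {k : Type} [Field k] [NumberField k] [Algebra k L]

omit [NumberField k] in
theorem gal {g : L ≃ₐ[ℚ] L} (h : ∀ y, y ∈ (algebraMap k L).range ↔ g y = y) :
    IsGaloisGroup (Subgroup.zpowers g) k L where
  faithful := inferInstance
  commutes := ⟨fun s a b => by
    rw [Algebra.smul_def, Algebra.smul_def, smul_mul']
    exact congrArg (· * _) (zp_fix (g := g) ((h _).1 ⟨a, rfl⟩) s)⟩
  isInvariant := ⟨fun y hy => (h y).2 (hy ⟨g, Subgroup.mem_zpowers g⟩)⟩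

/-- invariant primes have bounded order -/
theorem main {γ : L ≃ₐ[ℚ] L} (h : ∀ y, y ∈ (algebraMap k L).range ↔ γ y = y) {e : Pr k 1 → ℤ}
    (he : ∀ w : Pr L 1, (w.1.asIdeal.ramificationIdx (𝓞 k) : ℤ) = e (w.und k))
    (h0 : (mu e).range.index ≠ 0) {c : ℕ}
    (hc : (mu e).range.index ≤ c * hs (Eu L) (Nm γ (orderOf γ)) (Df γ)) {w : Sp L}
    (hw : γ • w = w) : ∃ n, n ≠ 0 ∧ n ≤ c * ((Ru k 1).map (dv k 1)).index ∧
      (w.asIdeal ^ n).IsPrincipal := by
  have := gal h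
  have hI : ∀ D : Dv L 1, γ • D = D → D ∈ (con k L 1).range := fun D hD =>
    (NT2.con_range k L (Subgroup.zpowers γ) 1 D).2 (zp_fix hD)
  set P := (Eu L).comap (Df γ : Un L →+ Un L) with hP
  have hPm : ∀ x, x ∈ P ↔ γ • dv L 1 x = dv L 1 x := fun x => by
    rw [hP, AddSubgroup.mem_comap, Eu_eq, AddMonoidHom.mem_ker, Df_apply, map_sub, eqv, sub_eq_zero]
  have p1 : (Df γ : Un L →+ Un L).ker ≤ P := AddSubgroup.ker_le_comap _ _
  have p2 : (dv L 1).ker ≤ P := fun x hx => by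
    rw [hPm, AddMonoidHom.mem_ker.1 hx, smul_zero]
  have e1 : hs (Eu L) (Nm γ (orderOf γ)) (Df γ) =
      ((Df γ).ker.map (dv L 1)).relIndex (P.map (dv L 1)) := by
    rw [hs, inf_comm, ← h90, ← AddSubgroup.map_comap_eq, AddSubgroup.relIndex_map_map,
      AddSubgroup.relIndex_map_map, ← hP, sup_of_le_left p1, sup_of_le_left p2, sup_comm, Eu_eq]
  have p3 : P.map (dv L 1) ≤ (con k L 1).range := by
    rintro _ ⟨x, hx, rfl⟩
    exact hI _ ((hPm x).1 hx)
  have e2 := AddSubgroup.relIndex_mul_relIndex _ _ _ (AddSubgroup.map_mono (f := dv L 1) p1) p3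
  rw [← e1, ← AddSubgroup.index_comap (H := (Df γ).ker.map (dv L 1))] at e2
  have p4 : ((Ru k 1).map (dv k 1)).map (mu e) ≤ ((Df γ).ker.map (dv L 1)).comap (con k L 1) := by
    rintro _ ⟨_, ⟨y, -, rfl⟩, rfl⟩
    refine ⟨Un.inc k L y, sub_eq_zero.2 (Un.ext ((h _).1 ⟨_, rfl⟩)), Finsupp.ext fun v => ?_⟩
    rw [dv_apply, NT2.ord_inc, he]
    rfl
  have e3 := AddSubgroup.index_dvd_of_le p4
  rw [← e2, AddSubgroup.index_map] at e3
  have e4 := e3.trans (mul_dvd_mul_right (AddSubgroup.index_dvd_of_le le_sup_left) _)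
  have e5 := mul_ne_zero (Ru_index_ne (F := k) (l := 1)) h0
  have e6 := mul_ne_zero_iff.1 (ne_zero_of_dvd_ne_zero e5 e4)
  have e7 := (Nat.le_of_dvd (Nat.pos_of_ne_zero e5) e4).trans (Nat.mul_le_mul_left _ hc)
  obtain ⟨x, -, hx⟩ := (P.map (dv L 1)).nsmul_relIndex_mem (hI (Finsupp.single (al w) 1) (by
    rw [show γ • Finsupp.single (al w) (1 : ℤ) = Finsupp.single (γ • al w) 1 from
      Finsupp.comapSMul_single _ _ _]
    exact congrArg (Finsupp.single · 1) (Subtype.ext hw)))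
  refine ⟨_, e6.2, Nat.le_of_mul_le_mul_left (e7.trans_eq ?_) (Nat.pos_of_ne_zero e6.1), prin hx⟩
  ring

end LEO

open LEO in
theorem rowLEO : OfLEO := by
  classical
  intro hT hP hU hN d
  by_cases h8 : d % 8 = 1
  swap
  · exact ⟨1, fun L _ _ M s θ σ γ t w => ⟨1, odd_one, hP.non L d M s θ σ γ t h8 w⟩⟩
  by_cases hd : Squarefree d ∧ Odd d ∧ 1 < d
  swap
  · exact ⟨0, fun L _ _ M s θ σ γ t => (hd ⟨t.sqf, t.odd, t.big⟩).elim⟩
  obtain ⟨s', θ', σ', γ', -, -, t'⟩ := hT.ex d 0 hd.1 hd.2.1 hd.2.2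
  obtain ⟨c, hc⟩ := hN d h8
  refine ⟨2 ^ c * ((Ru (kM d 0) 1).map (dv (kM d 0) 1)).index, fun L _ _ M s θ σ γ t w => ?_⟩
  obtain ⟨-, -, -, -, ho, -, hr⟩ := hT.gal L d M s θ σ γ t
  obtain ⟨j, -, hj⟩ := hT.bot L _ d M s θ σ γ s' θ' σ' γ' t t'
  let _ := j.toAlgebra
  have := gal (k := kM d 0) hj
  have := Pl_finite (F := kM d 0) two_ne_zero
  obtain ⟨u1, u2⟩ := hU L γ hr
  have u3 := hc L M s θ σ γ t (ho ▸ right_ne_zero_of_mul (u1 ▸ u2))
  obtain ⟨m1, m2⟩ := mu_index (fun v : Pl (kM d 0) 2 => al v.1) (orderOf_pos γ).ne'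
    (e := fun v => if ((2 : ℕ) : 𝓞 (kM d 0)) ∈ v.1.asIdeal then (orderOf γ : ℤ) else 1)
    (hP.card _ d 0 s' θ' σ' γ' t') fun v => by
      by_cases h : ((2 : ℕ) : 𝓞 (kM d 0)) ∈ v.1.asIdeal
      · exact Or.inr ⟨if_pos h, ⟨v.1, h⟩, rfl⟩
      · exact Or.inl (if_neg h)
  refine (main (k := kM d 0) hj (fun v => ?_) m1 (c := 2 ^ c) (w := w.1) (m2.trans ?_)
    (congrArg Subtype.val (hP.spl L d M s θ σ γ t h8 w).1)).elim fun n ⟨n0, n1, a, ha⟩ => ?_
  pick_goal 3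
  · obtain ⟨i, m, hm, rfl⟩ := Nat.exists_eq_two_pow_mul_odd n0
    have h1 : i ≤ 2 ^ c * ((Ru (kM d 0) 1).map (dv (kM d 0) 1)).index :=
      Nat.lt_two_pow_self.le.trans ((Nat.le_mul_of_pos_right _ hm.pos).trans n1)
    obtain ⟨r, hr⟩ := Nat.exists_eq_add_of_le h1
    refine ⟨m, hm, a ^ 2 ^ r, ?_⟩
    rw [hr, pow_add, mul_right_comm, pow_mul, ha]
    exact Ideal.span_singleton_pow _ _
  · by_cases h : ((2 : ℕ) : 𝓞 L) ∈ v.1.asIdeal
    · have h' := (NT2.nat_mem (kM d 0) 2 v.1).2 h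
      have h1 := ((hP.spl L d M s θ σ γ t h8 ⟨v.1, h⟩).2.2.1 (Un.inc _ L (Un.mk 2 two_ne_zero))
        (map_ofNat j 2)).symm.trans (NT2.ord_inc (kM d 0) L v.1 _)
      rw [(hP.spl _ d 0 s' θ' σ' γ' t' h8 ⟨_, h'⟩).2.2.1 _ rfl, pow_zero, mul_one] at h1
      rw [← h1, ho]
      exact (Nat.cast_pow 2 M).symm.trans (if_pos h').symm
    · rw [NT2.unr (kM d 0) L (Subgroup.zpowers γ) 2 (fun g hg u => ?_) ⟨v.1, h⟩]
      · exact (if_neg fun h' => h ((NT2.nat_mem (kM d 0) 2 v.1).1 h')).symm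
      · obtain ⟨i, hi⟩ := (isOfFinOrder_of_finite γ).mem_powers_iff_mem_zpowers.2 g.2
        by_contra hn
        push Not at hn
        exact hg (Subtype.ext (hi.symm.trans (hP.unr L d M s θ σ γ t u i fun x =>
          (show γ ^ i = g from hi) ▸ hn x)))
  · rw [← u1, ← ho] at *
    rw [sq, mul_left_comm]
    exact Nat.mul_le_mul_left _ u3

end Pool.Agent.MP_1246c0_nt.H25
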